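import Pool.Agent.Lib.MP_a90607_co.Data

/-!
The templates cover all pairs (number of vertices, magic constant) in the lower half.
With `u = 2 J - 5 n` and `σ = 3 n - J` one has `n = u + 2 σ` and `J = 3 u + 5 σ`.
-/

set_option autoImplicit false

namespace Pool.Agent.Lib.MP_a90607_co

/-- Use of a template growing in the direction of `σ` (step `2`). -/
lemma use_col {T : Template} (hT : T.check = true) (u v : ℤ) (hn : T.n = ⟨u + 2 * v, 4, 0⟩)
    (hJ : T.J = ⟨3 * u + 5 * v, 10, 0⟩) {w : ℤ} (h1 : v ≤ w) (h2 : (w - v) % 2 = 0) :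
    Good (u + 2 * w).toNat (3 * u + 5 * w) := by
  have h := T.good hT ((w - v) / 2).toNat 0
  have e : (((w - v) / 2).toNat : ℤ) = (w - v) / 2 := by omega
  have e1 : T.n.ev ((w - v) / 2).toNat 0 = u + 2 * w := by
    rw [hn]
    simp only [Aff.ev, e]
    push_cast
    omega
  have e2 : T.J.ev ((w - v) / 2).toNat 0 = 3 * u + 5 * w := by
    rw [hJ]
    simp only [Aff.ev, e]
    push_cast
    omega
  rwa [e1, e2] at h

/-- Use of a template growing in the direction of `u` (step `4`). -/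
lemma use_row {T : Template} (hT : T.check = true) (u v : ℤ) (hn : T.n = ⟨u + 2 * v, 4, 0⟩)
    (hJ : T.J = ⟨3 * u + 5 * v, 12, 0⟩) {x : ℤ} (h1 : u ≤ x) (h2 : (x - u) % 4 = 0) :
    Good (x + 2 * v).toNat (3 * x + 5 * v) := by
  have h := T.good hT ((x - u) / 4).toNat 0
  have e : (((x - u) / 4).toNat : ℤ) = (x - u) / 4 := by omega
  have e1 : T.n.ev ((x - u) / 4).toNat 0 = x + 2 * v := by
    rw [hn]
    simp only [Aff.ev, e]
    push_cast
    omega
  have e2 : T.J.ev ((x - u) / 4).toNat 0 = 3 * x + 5 * v := by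
    rw [hJ]
    simp only [Aff.ev, e]
    push_cast
    omega
  rwa [e1, e2] at h

/-- Use of a two-parameter template. -/
lemma use_two {T : Template} (hT : T.check = true) (u v : ℤ) (hn : T.n = ⟨u + 2 * v, 4, 6⟩)
    (hJ : T.J = ⟨3 * u + 5 * v, 12, 15⟩) {x w : ℤ} (h1 : u ≤ x) (h2 : (x - u) % 4 = 0)
    (h3 : v ≤ w) (h4 : (w - v) % 3 = 0) :
    Good (x + 2 * w).toNat (3 * x + 5 * w) := by
  have h := T.good hT ((x - u) / 4).toNat ((w - v) / 3).toNat
  have e : (((x - u) / 4).toNat : ℤ) = (x - u) / 4 := by omega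
  have e' : (((w - v) / 3).toNat : ℤ) = (w - v) / 3 := by omega
  have e1 : T.n.ev ((x - u) / 4).toNat ((w - v) / 3).toNat = x + 2 * w := by
    rw [hn]
    simp only [Aff.ev, e, e']
    omega
  have e2 : T.J.ev ((x - u) / 4).toNat ((w - v) / 3).toNat = 3 * x + 5 * w := by
    rw [hJ]
    simp only [Aff.ev, e, e']
    omega
  rwa [e1, e2] at h

/-- Use of a single labeling. -/
lemma use_pt {T : Template} (hT : T.check = true) (u v : ℤ) (hn : T.n = ⟨u + 2 * v, 0, 0⟩)
    (hJ : T.J = ⟨3 * u + 5 * v, 0, 0⟩) :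
    Good (u + 2 * v).toNat (3 * u + 5 * v) := by
  have h := T.good hT 0 0
  rw [hn, hJ] at h
  simpa [Aff.ev] using h

lemma col_3 {w : ℤ} (_h1 : -1 ≤ w) (_h5 : (3 : ℤ) + 2 * w = 4 ∨ 6 ≤ 3 + 2 * w) :
    Good ((3 : ℤ) + 2 * w).toNat (3 * 3 + 5 * w) := by
  rcases Int.emod_two_eq_zero_or_one (w - (1)) with h | h
  · exact use_col C_3_2_check 3 (1) rfl rfl (by omega) h
  · exact use_col C_3_3_check 3 (2) rfl rfl (by omega) (by omega)

lemma col_4 {w : ℤ} (_h1 : -1 ≤ w) (_h5 : (4 : ℤ) + 2 * w = 4 ∨ 6 ≤ 4 + 2 * w) :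
    Good ((4 : ℤ) + 2 * w).toNat (3 * 4 + 5 * w) := by
  rcases eq_or_ne w (0) with h | hne1
  · subst h
    exact use_pt P_4_1_check 4 (0) rfl rfl
  rcases Int.emod_two_eq_zero_or_one (w - (1)) with h | h
  · exact use_col C_4_2_check 4 (1) rfl rfl (by omega) h
  · exact use_col C_4_3_check 4 (2) rfl rfl (by omega) (by omega)

lemma col_5 {w : ℤ} (_h1 : -1 ≤ w) (_h5 : (5 : ℤ) + 2 * w = 4 ∨ 6 ≤ 5 + 2 * w) :
    Good ((5 : ℤ) + 2 * w).toNat (3 * 5 + 5 * w) := by
  rcases eq_or_ne w (2) with h | hne3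
  · subst h
    exact use_pt P_5_3_check 5 (2) rfl rfl
  rcases Int.emod_two_eq_zero_or_one (w - (1)) with h | h
  · exact use_col C_5_2_check 5 (1) rfl rfl (by omega) h
  · exact use_col C_5_5_check 5 (4) rfl rfl (by omega) (by omega)

lemma col_6 {w : ℤ} (_h1 : -1 ≤ w) (_h5 : (6 : ℤ) + 2 * w = 4 ∨ 6 ≤ 6 + 2 * w) :
    Good ((6 : ℤ) + 2 * w).toNat (3 * 6 + 5 * w) := by
  rcases eq_or_ne w (-1) with h | hne0
  · subst h
    exact use_pt P_6_0_check 6 (-1) rfl rfl
  rcases eq_or_ne w (0) with h | hne1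
  · subst h
    exact use_pt P_6_1_check 6 (0) rfl rfl
  rcases eq_or_ne w (2) with h | hne3
  · subst h
    exact use_pt P_6_3_check 6 (2) rfl rfl
  rcases Int.emod_two_eq_zero_or_one (w - (1)) with h | h
  · exact use_col C_6_2_check 6 (1) rfl rfl (by omega) h
  · exact use_col C_6_5_check 6 (4) rfl rfl (by omega) (by omega)

lemma col_7 {w : ℤ} (_h1 : -1 ≤ w) (_h5 : (7 : ℤ) + 2 * w = 4 ∨ 6 ≤ 7 + 2 * w) :
    Good ((7 : ℤ) + 2 * w).toNat (3 * 7 + 5 * w) := by
  rcases Int.emod_two_eq_zero_or_one (w - (0)) with h | h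
  · exact use_col C_7_1_check 7 (0) rfl rfl (by omega) h
  · exact use_col C_7_2_check 7 (1) rfl rfl (by omega) (by omega)

lemma col_8 {w : ℤ} (_h1 : -1 ≤ w) (_h5 : (8 : ℤ) + 2 * w = 4 ∨ 6 ≤ 8 + 2 * w) :
    Good ((8 : ℤ) + 2 * w).toNat (3 * 8 + 5 * w) := by
  rcases eq_or_ne w (-1) with h | hne0
  · subst h
    exact use_pt P_8_0_check 8 (-1) rfl rfl
  rcases Int.emod_two_eq_zero_or_one (w - (0)) with h | h
  · exact use_col C_8_1_check 8 (0) rfl rfl (by omega) h
  · exact use_col C_8_2_check 8 (1) rfl rfl (by omega) (by omega)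

lemma col_9 {w : ℤ} (_h1 : -1 ≤ w) (_h5 : (9 : ℤ) + 2 * w = 4 ∨ 6 ≤ 9 + 2 * w) :
    Good ((9 : ℤ) + 2 * w).toNat (3 * 9 + 5 * w) := by
  rcases Int.emod_two_eq_zero_or_one (w - (-1)) with h | h
  · exact use_col C_9_0_check 9 (-1) rfl rfl (by omega) h
  · exact use_col C_9_1_check 9 (0) rfl rfl (by omega) (by omega)

lemma col_10 {w : ℤ} (_h1 : -1 ≤ w) (_h5 : (10 : ℤ) + 2 * w = 4 ∨ 6 ≤ 10 + 2 * w) :
    Good ((10 : ℤ) + 2 * w).toNat (3 * 10 + 5 * w) := by
  rcases Int.emod_two_eq_zero_or_one (w - (-1)) with h | h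
  · exact use_col C_10_0_check 10 (-1) rfl rfl (by omega) h
  · exact use_col C_10_1_check 10 (0) rfl rfl (by omega) (by omega)

lemma col_11 {w : ℤ} (_h1 : -1 ≤ w) (_h5 : (11 : ℤ) + 2 * w = 4 ∨ 6 ≤ 11 + 2 * w) :
    Good ((11 : ℤ) + 2 * w).toNat (3 * 11 + 5 * w) := by
  rcases Int.emod_two_eq_zero_or_one (w - (-1)) with h | h
  · exact use_col C_11_0_check 11 (-1) rfl rfl (by omega) h
  · exact use_col C_11_1_check 11 (0) rfl rfl (by omega) (by omega)

lemma col_12 {w : ℤ} (_h1 : -1 ≤ w) (_h5 : (12 : ℤ) + 2 * w = 4 ∨ 6 ≤ 12 + 2 * w) :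
    Good ((12 : ℤ) + 2 * w).toNat (3 * 12 + 5 * w) := by
  rcases Int.emod_two_eq_zero_or_one (w - (-1)) with h | h
  · exact use_col C_12_0_check 12 (-1) rfl rfl (by omega) h
  · exact use_col C_12_1_check 12 (0) rfl rfl (by omega) (by omega)

lemma row_0 {x : ℤ} (h1 : 13 ≤ x) : Good (x + 2 * (-1)).toNat (3 * x + 5 * (-1)) := by
  have h : x % 4 = 0 ∨ x % 4 = 1 ∨ x % 4 = 2 ∨ x % 4 = 3 := by omega
  rcases h with h | h | h | h
  · exact use_row R_12_0_check 12 (-1) rfl rfl (by omega) (by omega)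
  · exact use_row R_13_0_check 13 (-1) rfl rfl (by omega) (by omega)
  · exact use_row R_10_0_check 10 (-1) rfl rfl (by omega) (by omega)
  · exact use_row R_11_0_check 11 (-1) rfl rfl (by omega) (by omega)

lemma row_1 {x : ℤ} (h1 : 13 ≤ x) : Good (x + 2 * (0)).toNat (3 * x + 5 * (0)) := by
  have h : x % 4 = 0 ∨ x % 4 = 1 ∨ x % 4 = 2 ∨ x % 4 = 3 := by omega
  rcases h with h | h | h | h
  · exact use_row R_8_1_check 8 (0) rfl rfl (by omega) (by omega)
  · exact use_row R_9_1_check 9 (0) rfl rfl (by omega) (by omega)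
  · exact use_row R_10_1_check 10 (0) rfl rfl (by omega) (by omega)
  · exact use_row R_11_1_check 11 (0) rfl rfl (by omega) (by omega)

lemma interior {x w : ℤ} (h1 : 13 ≤ x) (h2 : 1 ≤ w) : Good (x + 2 * w).toNat (3 * x + 5 * w) := by
  have h : x % 4 = 0 ∨ x % 4 = 1 ∨ x % 4 = 2 ∨ x % 4 = 3 := by omega
  have h' : w % 3 = 0 ∨ w % 3 = 1 ∨ w % 3 = 2 := by omega
  rcases h with h | h | h | h <;> rcases h' with h' | h' | h'
  · exact use_two D_12_4_check 12 3 rfl rfl (by omega) (by omega) (by omega) (by omega)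
  · exact use_two D_16_2_check 16 1 rfl rfl (by omega) (by omega) (by omega) (by omega)
  · exact use_two D_8_3_check 8 2 rfl rfl (by omega) (by omega) (by omega) (by omega)
  · exact use_two D_9_4_check 9 3 rfl rfl (by omega) (by omega) (by omega) (by omega)
  · exact use_two D_13_2_check 13 1 rfl rfl (by omega) (by omega) (by omega) (by omega)
  · exact use_two D_13_3_check 13 2 rfl rfl (by omega) (by omega) (by omega) (by omega)
  · exact use_two D_14_4_check 14 3 rfl rfl (by omega) (by omega) (by omega) (by omega)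
  · exact use_two D_14_2_check 14 1 rfl rfl (by omega) (by omega) (by omega) (by omega)
  · exact use_two D_14_3_check 14 2 rfl rfl (by omega) (by omega) (by omega) (by omega)
  · exact use_two D_7_4_check 7 3 rfl rfl (by omega) (by omega) (by omega) (by omega)
  · exact use_two D_15_2_check 15 1 rfl rfl (by omega) (by omega) (by omega) (by omega)
  · exact use_two D_15_3_check 15 2 rfl rfl (by omega) (by omega) (by omega) (by omega)

/-- All pairs in the lower half are covered. -/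
theorem cover {x w : ℤ} (h1 : 3 ≤ x) (h2 : -1 ≤ w)
    (h3 : x + 2 * w = 4 ∨ 6 ≤ x + 2 * w) : Good (x + 2 * w).toNat (3 * x + 5 * w) := by
  rcases lt_or_ge x 13 with hx | hx
  · have h : x = 3 ∨ x = 4 ∨ x = 5 ∨ x = 6 ∨ x = 7 ∨ x = 8 ∨ x = 9 ∨ x = 10 ∨ x = 11 ∨ x = 12 := by
      omega
    rcases h with rfl | rfl | rfl | rfl | rfl | rfl | rfl | rfl | rfl | rfl
    · exact col_3 h2 h3
    · exact col_4 h2 h3
    · exact col_5 h2 h3
    · exact col_6 h2 h3
    · exact col_7 h2 h3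
    · exact col_8 h2 h3
    · exact col_9 h2 h3
    · exact col_10 h2 h3
    · exact col_11 h2 h3
    · exact col_12 h2 h3
  · rcases lt_or_ge w 1 with hw | hw
    · have h : w = -1 ∨ w = 0 := by omega
      rcases h with rfl | rfl
      · exact row_0 hx
      · exact row_1 hx
    · exact interior hx hw

/-- The lower half in terms of the number of vertices and the magic constant. -/
theorem good_lower {n : ℕ} {J : ℤ} (h1 : 5 * (n : ℤ) + 3 ≤ 2 * J) (h2 : J ≤ 3 * n + 1)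
    (h3 : n = 4 ∨ 6 ≤ n) : Good n J := by
  have h := cover (x := 2 * J - 5 * n) (w := 3 * n - J) (by omega) (by omega) (by omega)
  have e1 : (2 * J - 5 * (n : ℤ) + 2 * (3 * n - J)).toNat = n := by omega
  have e2 : 3 * (2 * J - 5 * (n : ℤ)) + 5 * (3 * n - J) = J := by ring
  rwa [e1, e2] at h

/-- All magic constants. -/
theorem good_all {n : ℕ} {J : ℤ} (h1 : 5 * (n : ℤ) + 3 ≤ 2 * J) (h2 : 2 * J ≤ 7 * n + 3)
    (h3 : n = 4 ∨ 6 ≤ n) : Good n J := by
  rcases le_or_gt J (3 * n + 1) with h | h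
  · exact good_lower h1 h h3
  · have h4 : Good n (6 * n + 3 - J) := good_lower (by omega) (by omega) h3
    have h5 := h4.dual
    have e : 6 * (n : ℤ) + 3 - (6 * n + 3 - J) = J := by ring
    rwa [e] at h5

end Pool.Agent.Lib.MP_a90607_co
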