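import Pool.Agent.Lib.MP_a90607_co.Template

/-!
The templates. Name `X_u_v`: the base labeling has `n = u + 2 σ` vertices and magic constant
`3 u + 5 σ` with `σ = v - 1`.
-/

set_option autoImplicit false
set_option maxRecDepth 100000

namespace Pool.Agent.Lib.MP_a90607_co

/-- template -/
def C_3_2 : Template where
  x := .dn ⟨1, 0, 0⟩ ⟨3, 2, 0⟩ ⟨0, 1, 0⟩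
  l := [.one ⟨5, 4, 0⟩,
    .dn ⟨2, 1, 0⟩ ⟨4, 3, 0⟩ ⟨0, 1, 0⟩]
  J := ⟨14, 10, 0⟩
  n := ⟨5, 4, 0⟩

theorem C_3_2_check : C_3_2.check = true := by decide

/-- template -/
def C_3_3 : Template where
  x := .dn ⟨1, 0, 0⟩ ⟨4, 2, 0⟩ ⟨0, 1, 0⟩
  l := [.one ⟨7, 4, 0⟩,
    .one ⟨3, 2, 0⟩,
    .one ⟨6, 4, 0⟩,
    .dn ⟨2, 1, 0⟩ ⟨5, 3, 0⟩ ⟨0, 1, 0⟩]
  J := ⟨19, 10, 0⟩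
  n := ⟨7, 4, 0⟩

theorem C_3_3_check : C_3_3.check = true := by decide

/-- template -/
def C_4_3 : Template where
  x := .one ⟨1, 0, 0⟩
  l := [.dn ⟨5, 1, 0⟩ ⟨7, 3, 0⟩ ⟨0, 1, 0⟩,
    .one ⟨4, 1, 0⟩,
    .dn ⟨3, 0, 0⟩ ⟨6, 2, 0⟩ ⟨0, 1, 0⟩,
    .one ⟨2, 0, 0⟩,
    .one ⟨12, 6, 0⟩]
  J := ⟨22, 10, 0⟩
  n := ⟨8, 4, 0⟩

theorem C_4_3_check : C_4_3.check = true := by decide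

/-- template -/
def C_4_2 : Template where
  x := .up ⟨1, 0, 0⟩ ⟨5, 2, 0⟩ ⟨0, 1, 0⟩
  l := [.one ⟨2, 1, 0⟩,
    .up ⟨3, 1, 0⟩ ⟨6, 3, 0⟩ ⟨0, 1, 0⟩,
    .one ⟨7, 4, 0⟩]
  J := ⟨17, 10, 0⟩
  n := ⟨6, 4, 0⟩

theorem C_4_2_check : C_4_2.check = true := by decide

/-- template -/
def C_5_5 : Template where
  x := .one ⟨1, 0, 0⟩
  l := [.one ⟨8, 2, 0⟩,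
    .one ⟨2, 0, 0⟩,
    .one ⟨14, 4, 0⟩,
    .up ⟨3, 0, 0⟩ ⟨9, 2, 0⟩ ⟨0, 1, 0⟩,
    .one ⟨4, 1, 0⟩,
    .one ⟨20, 6, 0⟩,
    .one ⟨5, 1, 0⟩,
    .one ⟨6, 1, 0⟩,
    .up ⟨12, 3, 0⟩ ⟨7, 1, 0⟩ ⟨0, 1, 0⟩,
    .one ⟨13, 4, 0⟩]
  J := ⟨35, 10, 0⟩
  n := ⟨13, 4, 0⟩

theorem C_5_5_check : C_5_5.check = true := by decide

/-- template -/
def C_5_2 : Template where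
  x := .dn ⟨1, 0, 0⟩ ⟨5, 2, 0⟩ ⟨0, 1, 0⟩
  l := [.one ⟨4, 2, 0⟩,
    .one ⟨3, 2, 0⟩,
    .dn ⟨8, 3, 0⟩ ⟨2, 1, 0⟩ ⟨0, 1, 0⟩,
    .one ⟨12, 6, 0⟩]
  J := ⟨20, 10, 0⟩
  n := ⟨7, 4, 0⟩

theorem C_5_2_check : C_5_2.check = true := by decide

/-- template -/
def C_6_2 : Template where
  x := .one ⟨1, 0, 0⟩
  l := [.dn ⟨8, 3, 0⟩ ⟨4, 1, 0⟩ ⟨0, 1, 0⟩,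
    .one ⟨13, 6, 0⟩,
    .dn ⟨3, 0, 0⟩ ⟨5, 2, 0⟩ ⟨0, 1, 0⟩,
    .one ⟨2, 0, 0⟩,
    .one ⟨12, 6, 0⟩]
  J := ⟨23, 10, 0⟩
  n := ⟨8, 4, 0⟩

theorem C_6_2_check : C_6_2.check = true := by decide

/-- template -/
def C_6_5 : Template where
  x := .one ⟨1, 0, 0⟩
  l := [.one ⟨16, 4, 0⟩,
    .one ⟨14, 4, 0⟩,
    .one ⟨15, 4, 0⟩,
    .dn ⟨13, 3, 0⟩ ⟨7, 1, 0⟩ ⟨0, 1, 0⟩,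
    .one ⟨5, 1, 0⟩,
    .one ⟨6, 1, 0⟩,
    .one ⟨4, 1, 0⟩,
    .dn ⟨12, 2, 0⟩ ⟨3, 0, 0⟩ ⟨0, 1, 0⟩,
    .one ⟨11, 2, 0⟩,
    .one ⟨2, 0, 0⟩,
    .one ⟨17, 4, 0⟩]
  J := ⟨38, 10, 0⟩
  n := ⟨14, 4, 0⟩

theorem C_6_5_check : C_6_5.check = true := by decide

/-- template -/
def C_7_2 : Template where
  x := .dn ⟨2, 0, 0⟩ ⟨6, 2, 0⟩ ⟨0, 1, 0⟩
  l := [.one ⟨5, 2, 0⟩,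
    .dn ⟨4, 1, 0⟩ ⟨10, 3, 0⟩ ⟨0, 1, 0⟩,
    .one ⟨3, 1, 0⟩,
    .one ⟨14, 6, 0⟩,
    .one ⟨11, 4, 0⟩,
    .one ⟨8, 3, 0⟩]
  J := ⟨26, 10, 0⟩
  n := ⟨9, 4, 0⟩

theorem C_7_2_check : C_7_2.check = true := by decide

/-- template -/
def C_7_1 : Template where
  x := .one ⟨6, 2, 0⟩
  l := [.one ⟨5, 2, 0⟩,
    .dn ⟨4, 1, 0⟩ ⟨8, 3, 0⟩ ⟨0, 1, 0⟩,
    .one ⟨11, 6, 0⟩,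
    .dn ⟨7, 2, 0⟩ ⟨1, 0, 0⟩ ⟨0, 1, 0⟩]
  J := ⟨21, 10, 0⟩
  n := ⟨7, 4, 0⟩

theorem C_7_1_check : C_7_1.check = true := by decide

/-- template -/
def C_8_1 : Template where
  x := .dn ⟨3, 0, 0⟩ ⟨5, 2, 0⟩ ⟨0, 1, 0⟩
  l := [.one ⟨9, 4, 0⟩,
    .one ⟨14, 6, 0⟩,
    .one ⟨8, 4, 0⟩,
    .dn ⟨4, 1, 0⟩ ⟨7, 3, 0⟩ ⟨0, 1, 0⟩,
    .one ⟨6, 3, 0⟩]
  J := ⟨24, 10, 0⟩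
  n := ⟨8, 4, 0⟩

theorem C_8_1_check : C_8_1.check = true := by decide

/-- template -/
def C_8_2 : Template where
  x := .one ⟨2, 0, 0⟩
  l := [.dn ⟨10, 3, 0⟩ ⟨6, 1, 0⟩ ⟨0, 1, 0⟩,
    .one ⟨15, 6, 0⟩,
    .one ⟨5, 1, 0⟩,
    .dn ⟨4, 0, 0⟩ ⟨7, 2, 0⟩ ⟨0, 1, 0⟩,
    .one ⟨3, 0, 0⟩,
    .one ⟨12, 4, 0⟩,
    .one ⟨16, 6, 0⟩]
  J := ⟨29, 10, 0⟩
  n := ⟨10, 4, 0⟩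

theorem C_8_2_check : C_8_2.check = true := by decide

/-- template -/
def C_9_1 : Template where
  x := .one ⟨8, 2, 0⟩
  l := [.one ⟨4, 2, 0⟩,
    .dn ⟨11, 3, 0⟩ ⟨3, 1, 0⟩ ⟨0, 1, 0⟩,
    .one ⟨14, 6, 0⟩,
    .one ⟨6, 2, 0⟩,
    .one ⟨16, 6, 0⟩,
    .dn ⟨9, 2, 0⟩ ⟨1, 0, 0⟩ ⟨0, 1, 0⟩]
  J := ⟨27, 10, 0⟩
  n := ⟨9, 4, 0⟩

theorem C_9_1_check : C_9_1.check = true := by decide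

/-- template -/
def C_9_0 : Template where
  x := .dn ⟨1, 0, 0⟩ ⟨7, 2, 0⟩ ⟨0, 1, 0⟩
  l := [.dn ⟨3, 1, 0⟩ ⟨9, 3, 0⟩ ⟨0, 1, 0⟩,
    .one ⟨11, 6, 0⟩,
    .one ⟨5, 2, 0⟩,
    .one ⟨13, 6, 0⟩]
  J := ⟨22, 10, 0⟩
  n := ⟨7, 4, 0⟩

theorem C_9_0_check : C_9_0.check = true := by decide

/-- template -/
def C_10_0 : Template where
  x := .dn ⟨1, 0, 0⟩ ⟨8, 2, 0⟩ ⟨0, 1, 0⟩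
  l := [.dn ⟨4, 1, 0⟩ ⟨10, 3, 0⟩ ⟨0, 1, 0⟩,
    .one ⟨12, 6, 0⟩,
    .one ⟨6, 2, 0⟩,
    .one ⟨14, 6, 0⟩,
    .one ⟨9, 3, 0⟩]
  J := ⟨25, 10, 0⟩
  n := ⟨8, 4, 0⟩

theorem C_10_0_check : C_10_0.check = true := by decide

/-- template -/
def C_10_1 : Template where
  x := .one ⟨1, 0, 0⟩
  l := [.one ⟨12, 4, 0⟩,
    .up ⟨7, 2, 0⟩ ⟨3, 0, 0⟩ ⟨0, 1, 0⟩,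
    .one ⟨8, 3, 0⟩,
    .one ⟨18, 6, 0⟩,
    .one ⟨10, 4, 0⟩,
    .dn ⟨6, 1, 0⟩ ⟨9, 3, 0⟩ ⟨0, 1, 0⟩,
    .one ⟨16, 6, 0⟩]
  J := ⟨30, 10, 0⟩
  n := ⟨10, 4, 0⟩

theorem C_10_1_check : C_10_1.check = true := by decide

/-- template -/
def C_11_0 : Template where
  x := .dn ⟨1, 0, 0⟩ ⟨9, 2, 0⟩ ⟨0, 1, 0⟩
  l := [.one ⟨15, 6, 0⟩,
    .one ⟨6, 2, 0⟩,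
    .one ⟨17, 6, 0⟩,
    .one ⟨3, 2, 0⟩,
    .dn ⟨12, 3, 0⟩ ⟨2, 1, 0⟩ ⟨0, 1, 0⟩,
    .one ⟨16, 6, 0⟩]
  J := ⟨28, 10, 0⟩
  n := ⟨9, 4, 0⟩

theorem C_11_0_check : C_11_0.check = true := by decide

/-- template -/
def C_11_1 : Template where
  x := .one ⟨2, 0, 0⟩
  l := [.one ⟨9, 2, 0⟩,
    .one ⟨8, 2, 0⟩,
    .one ⟨18, 6, 0⟩,
    .one ⟨14, 4, 0⟩,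
    .dn ⟨6, 1, 0⟩ ⟨12, 3, 0⟩ ⟨0, 1, 0⟩,
    .one ⟨17, 6, 0⟩,
    .one ⟨11, 3, 0⟩,
    .dn ⟨3, 0, 0⟩ ⟨10, 2, 0⟩ ⟨0, 1, 0⟩]
  J := ⟨33, 10, 0⟩
  n := ⟨11, 4, 0⟩

theorem C_11_1_check : C_11_1.check = true := by decide

/-- template -/
def C_12_1 : Template where
  x := .one ⟨11, 2, 0⟩
  l := [.dn ⟨5, 1, 0⟩ ⟨15, 3, 0⟩ ⟨0, 1, 0⟩,
    .one ⟨18, 6, 0⟩,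
    .one ⟨4, 1, 0⟩,
    .one ⟨19, 6, 0⟩,
    .one ⟨10, 2, 0⟩,
    .one ⟨9, 2, 0⟩,
    .one ⟨6, 2, 0⟩,
    .one ⟨22, 6, 0⟩,
    .dn ⟨12, 2, 0⟩ ⟨1, 0, 0⟩ ⟨0, 1, 0⟩]
  J := ⟨36, 10, 0⟩
  n := ⟨12, 4, 0⟩

theorem C_12_1_check : C_12_1.check = true := by decide

/-- template -/
def C_12_0 : Template where
  x := .one ⟨1, 0, 0⟩
  l := [.one ⟨16, 6, 0⟩,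
    .up ⟨10, 3, 0⟩ ⟨6, 1, 0⟩ ⟨0, 1, 0⟩,
    .one ⟨18, 6, 0⟩,
    .dn ⟨9, 2, 0⟩ ⟨3, 0, 0⟩ ⟨0, 1, 0⟩,
    .one ⟨8, 2, 0⟩,
    .one ⟨12, 4, 0⟩,
    .one ⟨17, 6, 0⟩]
  J := ⟨31, 10, 0⟩
  n := ⟨10, 4, 0⟩

theorem C_12_0_check : C_12_0.check = true := by decide

/-- template -/
def R_10_0 : Template where
  x := .one ⟨9, 4, 0⟩
  l := [.one ⟨2, 1, 0⟩,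
    .up ⟨16, 7, 0⟩ ⟨3, 1, 0⟩ ⟨0, 1, 0⟩,
    .one ⟨12, 6, 0⟩,
    .one ⟨8, 4, 0⟩,
    .up ⟨13, 6, 0⟩ ⟨1, 0, 0⟩ ⟨0, 1, 0⟩]
  J := ⟨25, 12, 0⟩
  n := ⟨8, 4, 0⟩

theorem R_10_0_check : R_10_0.check = true := by decide

/-- template -/
def R_11_0 : Template where
  x := .one ⟨14, 6, 0⟩
  l := [.one ⟨5, 2, 0⟩,
    .one ⟨8, 4, 0⟩,
    .up ⟨3, 1, 0⟩ ⟨18, 7, 0⟩ ⟨0, 1, 0⟩,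
    .one ⟨6, 2, 0⟩,
    .one ⟨10, 4, 0⟩,
    .dn ⟨16, 6, 0⟩ ⟨1, 0, 0⟩ ⟨0, 1, 0⟩]
  J := ⟨28, 12, 0⟩
  n := ⟨9, 4, 0⟩

theorem R_11_0_check : R_11_0.check = true := by decide

/-- template -/
def R_12_0 : Template where
  x := .one ⟨16, 6, 0⟩
  l := [.one ⟨9, 4, 0⟩,
    .one ⟨5, 2, 0⟩,
    .one ⟨11, 4, 0⟩,
    .one ⟨7, 2, 0⟩,
    .dn ⟨4, 1, 0⟩ ⟨19, 7, 0⟩ ⟨0, 1, 0⟩,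
    .one ⟨10, 4, 0⟩,
    .dn ⟨18, 6, 0⟩ ⟨1, 0, 0⟩ ⟨0, 1, 0⟩]
  J := ⟨31, 12, 0⟩
  n := ⟨10, 4, 0⟩

theorem R_12_0_check : R_12_0.check = true := by decide

/-- template -/
def R_13_0 : Template where
  x := .one ⟨12, 4, 0⟩
  l := [.one ⟨16, 6, 0⟩,
    .one ⟨10, 4, 0⟩,
    .one ⟨7, 2, 0⟩,
    .dn ⟨5, 1, 0⟩ ⟨20, 7, 0⟩ ⟨0, 1, 0⟩,
    .one ⟨11, 4, 0⟩,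
    .one ⟨19, 7, 0⟩,
    .one ⟨2, 1, 0⟩,
    .dn ⟨18, 6, 0⟩ ⟨1, 0, 0⟩ ⟨0, 1, 0⟩]
  J := ⟨34, 12, 0⟩
  n := ⟨11, 4, 0⟩

theorem R_13_0_check : R_13_0.check = true := by decide

/-- template -/
def R_8_1 : Template where
  x := .one ⟨8, 4, 0⟩
  l := [.one ⟨2, 1, 0⟩,
    .up ⟨16, 7, 0⟩ ⟨3, 1, 0⟩ ⟨0, 1, 0⟩,
    .one ⟨9, 4, 0⟩,
    .one ⟨4, 2, 0⟩,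
    .up ⟨13, 6, 0⟩ ⟨1, 0, 0⟩ ⟨0, 1, 0⟩]
  J := ⟨24, 12, 0⟩
  n := ⟨8, 4, 0⟩

theorem R_8_1_check : R_8_1.check = true := by decide

/-- template -/
def R_9_1 : Template where
  x := .one ⟨8, 4, 0⟩
  l := [.one ⟨3, 1, 0⟩,
    .up ⟨17, 7, 0⟩ ⟨4, 1, 0⟩ ⟨0, 1, 0⟩,
    .one ⟨9, 4, 0⟩,
    .one ⟨5, 2, 0⟩,
    .one ⟨10, 4, 0⟩,
    .dn ⟨15, 6, 0⟩ ⟨1, 0, 0⟩ ⟨0, 1, 0⟩]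
  J := ⟨27, 12, 0⟩
  n := ⟨9, 4, 0⟩

theorem R_9_1_check : R_9_1.check = true := by decide

/-- template -/
def R_10_1 : Template where
  x := .one ⟨11, 4, 0⟩
  l := [.one ⟨12, 4, 0⟩,
    .dn ⟨4, 1, 0⟩ ⟨20, 7, 0⟩ ⟨0, 1, 0⟩,
    .one ⟨8, 4, 0⟩,
    .one ⟨3, 1, 0⟩,
    .one ⟨10, 4, 0⟩,
    .one ⟨5, 2, 0⟩,
    .up ⟨16, 6, 0⟩ ⟨1, 0, 0⟩ ⟨0, 1, 0⟩]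
  J := ⟨30, 12, 0⟩
  n := ⟨10, 4, 0⟩

theorem R_10_1_check : R_10_1.check = true := by decide

/-- template -/
def R_11_1 : Template where
  x := .one ⟨9, 4, 0⟩
  l := [.one ⟨4, 1, 0⟩,
    .one ⟨10, 4, 0⟩,
    .up ⟨5, 1, 0⟩ ⟨21, 7, 0⟩ ⟨0, 1, 0⟩,
    .one ⟨11, 4, 0⟩,
    .one ⟨6, 2, 0⟩,
    .one ⟨12, 4, 0⟩,
    .one ⟨13, 4, 0⟩,
    .dn ⟨17, 6, 0⟩ ⟨2, 0, 0⟩ ⟨0, 1, 0⟩]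
  J := ⟨33, 12, 0⟩
  n := ⟨11, 4, 0⟩

theorem R_11_1_check : R_11_1.check = true := by decide

/-- template -/
def D_12_4 : Template where
  x := .one ⟨1, 0, 0⟩
  l := [.one ⟨14, 4, 3⟩,
    .up ⟨31, 7, 10⟩ ⟨7, 1, 2⟩ ⟨0, 1, 0⟩,
    .one ⟨32, 8, 10⟩,
    .up ⟨8, 2, 2⟩ ⟨20, 4, 5⟩ ⟨0, 0, 1⟩,
    .one ⟨22, 6, 6⟩,
    .up ⟨3, 0, 1⟩ ⟨27, 6, 8⟩ ⟨0, 1, 0⟩,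
    .dn ⟨5, 1, 1⟩ ⟨18, 4, 4⟩ ⟨0, 0, 1⟩,
    .one ⟨4, 1, 1⟩,
    .one ⟨17, 4, 4⟩,
    .one ⟨10, 2, 3⟩,
    .dn ⟨16, 4, 3⟩ ⟨2, 0, 0⟩ ⟨0, 0, 1⟩,
    .one ⟨15, 4, 3⟩]
  J := ⟨51, 12, 15⟩
  n := ⟨18, 4, 6⟩

theorem D_12_4_check : D_12_4.check = true := by decide

/-- template -/
def D_16_2 : Template where
  x := .one ⟨1, 0, 0⟩
  l := [.one ⟨17, 4, 5⟩,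
    .dn ⟨7, 1, 1⟩ ⟨16, 4, 4⟩ ⟨0, 0, 1⟩,
    .one ⟨31, 7, 10⟩,
    .up ⟨8, 1, 2⟩ ⟨32, 7, 10⟩ ⟨0, 1, 0⟩,
    .up ⟨9, 2, 2⟩ ⟨19, 4, 5⟩ ⟨0, 0, 1⟩,
    .one ⟨24, 6, 6⟩,
    .one ⟨26, 6, 8⟩,
    .up ⟨4, 0, 1⟩ ⟨28, 6, 8⟩ ⟨0, 1, 0⟩,
    .one ⟨20, 4, 6⟩,
    .one ⟨11, 2, 3⟩,
    .dn ⟨15, 4, 3⟩ ⟨2, 0, 0⟩ ⟨0, 0, 1⟩,
    .one ⟨18, 4, 5⟩]
  J := ⟨53, 12, 15⟩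
  n := ⟨18, 4, 6⟩

theorem D_16_2_check : D_16_2.check = true := by decide

/-- template -/
def D_8_3 : Template where
  x := .one ⟨1, 0, 0⟩
  l := [.up ⟨9, 4, 3⟩ ⟨2, 0, 0⟩ ⟨0, 0, 1⟩,
    .up ⟨17, 6, 8⟩ ⟨3, 0, 1⟩ ⟨0, 1, 0⟩,
    .one ⟨18, 7, 8⟩,
    .up ⟨4, 1, 1⟩ ⟨10, 4, 4⟩ ⟨0, 0, 1⟩,
    .up ⟨5, 1, 2⟩ ⟨21, 7, 10⟩ ⟨0, 1, 0⟩,
    .dn ⟨7, 2, 2⟩ ⟨11, 4, 5⟩ ⟨0, 0, 1⟩]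
  J := ⟨34, 12, 15⟩
  n := ⟨12, 4, 6⟩

theorem D_8_3_check : D_8_3.check = true := by decide

/-- template -/
def D_9_4 : Template where
  x := .dn ⟨1, 0, 0⟩ ⟨11, 4, 3⟩ ⟨0, 0, 1⟩
  l := [.one ⟨16, 4, 6⟩,
    .one ⟨3, 1, 1⟩,
    .one ⟨22, 7, 8⟩,
    .dn ⟨2, 0, 1⟩ ⟨21, 6, 8⟩ ⟨0, 1, 0⟩,
    .up ⟨14, 4, 5⟩ ⟨8, 2, 2⟩ ⟨0, 0, 1⟩,
    .dn ⟨6, 1, 2⟩ ⟨27, 7, 10⟩ ⟨0, 1, 0⟩,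
    .one ⟨5, 1, 2⟩,
    .dn ⟨13, 4, 4⟩ ⟨4, 1, 1⟩ ⟨0, 0, 1⟩,
    .one ⟨12, 4, 4⟩]
  J := ⟨42, 12, 15⟩
  n := ⟨15, 4, 6⟩

theorem D_9_4_check : D_9_4.check = true := by decide

/-- template -/
def D_13_2 : Template where
  x := .dn ⟨2, 0, 0⟩ ⟨12, 4, 3⟩ ⟨0, 0, 1⟩
  l := [.up ⟨6, 1, 2⟩ ⟨27, 7, 10⟩ ⟨0, 1, 0⟩,
    .dn ⟨16, 4, 4⟩ ⟨5, 1, 1⟩ ⟨0, 0, 1⟩,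
    .one ⟨15, 4, 4⟩,
    .dn ⟨4, 0, 1⟩ ⟨22, 6, 8⟩ ⟨0, 1, 0⟩,
    .one ⟨19, 6, 6⟩,
    .dn ⟨17, 4, 5⟩ ⟨7, 2, 2⟩ ⟨0, 0, 1⟩,
    .one ⟨9, 2, 3⟩,
    .one ⟨21, 6, 8⟩,
    .one ⟨13, 4, 4⟩]
  J := ⟨44, 12, 15⟩
  n := ⟨15, 4, 6⟩

theorem D_13_2_check : D_13_2.check = true := by decide

/-- template -/
def D_13_3 : Template where
  x := .dn ⟨1, 0, 0⟩ ⟨14, 4, 3⟩ ⟨0, 0, 1⟩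
  l := [.one ⟨31, 7, 10⟩,
    .up ⟨5, 1, 2⟩ ⟨32, 7, 10⟩ ⟨0, 1, 0⟩,
    .one ⟨10, 2, 3⟩,
    .one ⟨6, 2, 2⟩,
    .dn ⟨17, 4, 4⟩ ⟨3, 1, 1⟩ ⟨0, 0, 1⟩,
    .one ⟨16, 4, 4⟩,
    .one ⟨9, 2, 3⟩,
    .one ⟨15, 4, 4⟩,
    .one ⟨23, 6, 8⟩,
    .up ⟨8, 2, 2⟩ ⟨19, 4, 5⟩ ⟨0, 0, 1⟩,
    .dn ⟨2, 0, 1⟩ ⟨27, 6, 8⟩ ⟨0, 1, 0⟩]
  J := ⟨49, 12, 15⟩
  n := ⟨17, 4, 6⟩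

theorem D_13_3_check : D_13_3.check = true := by decide

/-- template -/
def D_14_4 : Template where
  x := .up ⟨1, 0, 0⟩ ⟨16, 4, 3⟩ ⟨0, 0, 1⟩
  l := [.one ⟨28, 6, 8⟩,
    .up ⟨17, 4, 4⟩ ⟨5, 1, 1⟩ ⟨0, 0, 1⟩,
    .one ⟨18, 4, 5⟩,
    .one ⟨6, 1, 2⟩,
    .up ⟨36, 7, 10⟩ ⟨7, 1, 2⟩ ⟨0, 1, 0⟩,
    .up ⟨20, 4, 5⟩ ⟨10, 2, 2⟩ ⟨0, 0, 1⟩,
    .one ⟨8, 2, 2⟩,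
    .one ⟨11, 2, 3⟩,
    .one ⟨21, 4, 6⟩,
    .one ⟨32, 7, 8⟩,
    .one ⟨3, 1, 1⟩,
    .dn ⟨31, 6, 8⟩ ⟨2, 0, 1⟩ ⟨0, 1, 0⟩,
    .one ⟨29, 6, 8⟩,
    .one ⟨19, 4, 5⟩]
  J := ⟨57, 12, 15⟩
  n := ⟨20, 4, 6⟩

theorem D_14_4_check : D_14_4.check = true := by decide

/-- template -/
def D_14_2 : Template where
  x := .dn ⟨2, 0, 0⟩ ⟨13, 4, 3⟩ ⟨0, 0, 1⟩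
  l := [.up ⟨29, 7, 10⟩ ⟨6, 1, 2⟩ ⟨0, 1, 0⟩,
    .one ⟨10, 2, 3⟩,
    .one ⟨30, 8, 10⟩,
    .dn ⟨16, 4, 4⟩ ⟨4, 1, 1⟩ ⟨0, 0, 1⟩,
    .one ⟨15, 4, 4⟩,
    .one ⟨9, 2, 3⟩,
    .one ⟨14, 4, 4⟩,
    .one ⟨22, 6, 8⟩,
    .up ⟨8, 2, 2⟩ ⟨18, 4, 5⟩ ⟨0, 0, 1⟩,
    .dn ⟨3, 0, 1⟩ ⟨25, 6, 8⟩ ⟨0, 1, 0⟩]
  J := ⟨47, 12, 15⟩
  n := ⟨16, 4, 6⟩

theorem D_14_2_check : D_14_2.check = true := by decide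

/-- template -/
def D_14_3 : Template where
  x := .dn ⟨1, 0, 0⟩ ⟨15, 4, 3⟩ ⟨0, 0, 1⟩
  l := [.up ⟨32, 7, 10⟩ ⟨6, 1, 2⟩ ⟨0, 1, 0⟩,
    .one ⟨33, 8, 10⟩,
    .one ⟨7, 2, 2⟩,
    .one ⟨19, 4, 5⟩,
    .one ⟨4, 1, 2⟩,
    .dn ⟨18, 4, 4⟩ ⟨3, 1, 1⟩ ⟨0, 0, 1⟩,
    .dn ⟨28, 6, 8⟩ ⟨2, 0, 1⟩ ⟨0, 1, 0⟩,
    .one ⟨23, 6, 6⟩,
    .dn ⟨20, 4, 5⟩ ⟨8, 2, 2⟩ ⟨0, 0, 1⟩,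
    .one ⟨10, 2, 3⟩,
    .one ⟨25, 6, 8⟩,
    .one ⟨16, 4, 4⟩]
  J := ⟨52, 12, 15⟩
  n := ⟨18, 4, 6⟩

theorem D_14_3_check : D_14_3.check = true := by decide

/-- template -/
def D_7_4 : Template where
  x := .one ⟨1, 0, 0⟩
  l := [.up ⟨9, 4, 3⟩ ⟨2, 0, 0⟩ ⟨0, 0, 1⟩,
    .up ⟨18, 6, 8⟩ ⟨3, 0, 1⟩ ⟨0, 1, 0⟩,
    .dn ⟨13, 4, 5⟩ ⟨6, 2, 2⟩ ⟨0, 0, 1⟩,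
    .dn ⟨23, 7, 10⟩ ⟨5, 1, 2⟩ ⟨0, 1, 0⟩,
    .one ⟨12, 4, 5⟩,
    .one ⟨10, 4, 4⟩,
    .up ⟨4, 1, 1⟩ ⟨11, 4, 4⟩ ⟨0, 0, 1⟩]
  J := ⟨36, 12, 15⟩
  n := ⟨13, 4, 6⟩

theorem D_7_4_check : D_7_4.check = true := by decide

/-- template -/
def D_15_2 : Template where
  x := .one ⟨14, 4, 3⟩
  l := [.one ⟨30, 7, 10⟩,
    .up ⟨7, 1, 2⟩ ⟨31, 7, 10⟩ ⟨0, 1, 0⟩,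
    .one ⟨18, 4, 5⟩,
    .dn ⟨5, 1, 1⟩ ⟨17, 4, 4⟩ ⟨0, 0, 1⟩,
    .dn ⟨4, 0, 1⟩ ⟨26, 6, 8⟩ ⟨0, 1, 0⟩,
    .one ⟨3, 0, 1⟩,
    .one ⟨22, 6, 6⟩,
    .dn ⟨19, 4, 5⟩ ⟨8, 2, 2⟩ ⟨0, 0, 1⟩,
    .one ⟨10, 2, 3⟩,
    .one ⟨24, 6, 8⟩,
    .dn ⟨15, 4, 3⟩ ⟨2, 0, 0⟩ ⟨0, 0, 1⟩]
  J := ⟨50, 12, 15⟩
  n := ⟨17, 4, 6⟩

theorem D_15_2_check : D_15_2.check = true := by decide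

/-- template -/
def D_15_3 : Template where
  x := .dn ⟨1, 0, 0⟩ ⟨16, 4, 3⟩ ⟨0, 0, 1⟩
  l := [.up ⟨33, 7, 10⟩ ⟨7, 1, 2⟩ ⟨0, 1, 0⟩,
    .one ⟨34, 8, 10⟩,
    .one ⟨8, 2, 2⟩,
    .one ⟨35, 8, 10⟩,
    .one ⟨2, 0, 1⟩,
    .one ⟨24, 6, 6⟩,
    .up ⟨3, 0, 1⟩ ⟨30, 6, 8⟩ ⟨0, 1, 0⟩,
    .one ⟨20, 4, 5⟩,
    .dn ⟨4, 1, 1⟩ ⟨19, 4, 4⟩ ⟨0, 0, 1⟩,
    .one ⟨10, 2, 3⟩,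
    .up ⟨9, 2, 2⟩ ⟨21, 4, 5⟩ ⟨0, 0, 1⟩,
    .one ⟨11, 2, 3⟩,
    .one ⟨17, 4, 4⟩]
  J := ⟨55, 12, 15⟩
  n := ⟨19, 4, 6⟩

theorem D_15_3_check : D_15_3.check = true := by decide

/-- template -/
def P_4_1 : Template where
  x := .one ⟨1, 0, 0⟩
  l := [.one ⟨3, 0, 0⟩,
    .one ⟨2, 0, 0⟩,
    .one ⟨6, 0, 0⟩]
  J := ⟨12, 0, 0⟩
  n := ⟨4, 0, 0⟩

theorem P_4_1_check : P_4_1.check = true := by decide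

/-- template -/
def P_5_3 : Template where
  x := .one ⟨1, 0, 0⟩
  l := [.one ⟨6, 0, 0⟩,
    .one ⟨2, 0, 0⟩,
    .one ⟨7, 0, 0⟩,
    .one ⟨3, 0, 0⟩,
    .one ⟨8, 0, 0⟩,
    .one ⟨12, 0, 0⟩,
    .one ⟨4, 0, 0⟩,
    .one ⟨11, 0, 0⟩]
  J := ⟨25, 0, 0⟩
  n := ⟨9, 0, 0⟩

theorem P_5_3_check : P_5_3.check = true := by decide

/-- template -/
def P_6_0 : Template where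
  x := .one ⟨1, 0, 0⟩
  l := [.one ⟨4, 0, 0⟩,
    .one ⟨6, 0, 0⟩,
    .one ⟨5, 0, 0⟩]
  J := ⟨13, 0, 0⟩
  n := ⟨4, 0, 0⟩

theorem P_6_0_check : P_6_0.check = true := by decide

/-- template -/
def P_6_1 : Template where
  x := .one ⟨1, 0, 0⟩
  l := [.one ⟨8, 0, 0⟩,
    .one ⟨4, 0, 0⟩,
    .one ⟨2, 0, 0⟩,
    .one ⟨5, 0, 0⟩,
    .one ⟨10, 0, 0⟩]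
  J := ⟨18, 0, 0⟩
  n := ⟨6, 0, 0⟩

theorem P_6_1_check : P_6_1.check = true := by decide

/-- template -/
def P_6_3 : Template where
  x := .one ⟨1, 0, 0⟩
  l := [.one ⟨10, 0, 0⟩,
    .one ⟨4, 0, 0⟩,
    .one ⟨5, 0, 0⟩,
    .one ⟨3, 0, 0⟩,
    .one ⟨9, 0, 0⟩,
    .one ⟨13, 0, 0⟩,
    .one ⟨8, 0, 0⟩,
    .one ⟨2, 0, 0⟩,
    .one ⟨15, 0, 0⟩]
  J := ⟨28, 0, 0⟩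
  n := ⟨10, 0, 0⟩

theorem P_6_3_check : P_6_3.check = true := by decide

/-- template -/
def P_8_0 : Template where
  x := .one ⟨1, 0, 0⟩
  l := [.one ⟨7, 0, 0⟩,
    .one ⟨3, 0, 0⟩,
    .one ⟨12, 0, 0⟩,
    .one ⟨5, 0, 0⟩,
    .one ⟨8, 0, 0⟩]
  J := ⟨19, 0, 0⟩
  n := ⟨6, 0, 0⟩

theorem P_8_0_check : P_8_0.check = true := by decide

end Pool.Agent.Lib.MP_a90607_co
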