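import Mathlib

/-!
Two-parameter families of edge-magic labelings of cycles, given by a finite amount of data
(a template) together with a decidable criterion.
-/

set_option autoImplicit false

namespace Pool.Agent.Lib.MP_a90607_co

/-- Consecutive sums of a list. -/
def cs : List ℤ → List ℤ
  | [] => []
  | [_] => []
  | x :: y :: l => (x + y) :: cs (y :: l)

/-- The interval `{a, a + 1, …, a + l - 1}` as a multiset. -/
def iv (a : ℤ) (l : ℕ) : Multiset ℤ := (Multiset.range l).map (fun i : ℕ => a + i)

/-- The edge labels of the cyclic sequence `L` of vertex labels for the magic constant `J`. -/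
def edges (J : ℤ) (L : List ℤ) : List ℤ := (cs (L ++ L.head?.toList)).map (fun z => J - z)

/-- The cycle with `n` vertices has an edge-magic labeling with magic constant `J`. -/
def Good (n : ℕ) (J : ℤ) : Prop :=
  ∃ L : List ℤ, L.length = n ∧ (L : Multiset ℤ) + (edges J L : Multiset ℤ) = iv 1 (2 * n)

lemma iv_zero (a : ℤ) : iv a 0 = 0 := by simp [iv]

lemma iv_succ (a : ℤ) (l : ℕ) : iv a (l + 1) = (a + l) ::ₘ iv a l := by
  simp [iv, Multiset.range_succ]

lemma iv_one (a : ℤ) : iv a 1 = {a} := by simp [iv]

lemma iv_add (a : ℤ) (l m : ℕ) : iv a (l + m) = iv a l + iv (a + l) m := by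
  induction m with
  | zero => simp [iv_zero]
  | succ m ih =>
    rw [← add_assoc, iv_succ, iv_succ, ih, Multiset.add_cons]
    congr 1
    push_cast
    ring

lemma iv_succ' (a : ℤ) (l : ℕ) : iv a (l + 1) = a ::ₘ iv (a + 1) l := by
  rw [add_comm l 1, iv_add, iv_one]
  simp

lemma card_iv (a : ℤ) (l : ℕ) : Multiset.card (iv a l) = l := by simp [iv]

lemma map_sub_iv (J a : ℤ) (l : ℕ) :
    (iv a l).map (fun z => J - z) = iv (J - a - l + 1) l := by
  induction l with
  | zero => simp [iv_zero]
  | succ l ih =>
    rw [iv_succ, Multiset.map_cons, ih, iv_succ']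
    push_cast
    congr 1
    · ring
    · congr 1
      ring

/-! ### Consecutive sums -/

lemma cs_append (l : List ℤ) (a b : ℤ) (m : List ℤ) :
    cs (l ++ [a] ++ b :: m) = cs (l ++ [a]) ++ (a + b) :: cs (b :: m) := by
  induction l with
  | nil => simp [cs]
  | cons x l ih =>
    cases l with
    | nil => simp [cs]
    | cons y l =>
      simp only [List.cons_append, cs] at ih ⊢
      rw [ih]

lemma cs_concat (l : List ℤ) (a b : ℤ) :
    cs (l ++ [a] ++ [b]) = cs (l ++ [a]) ++ [a + b] := by
  rw [cs_append]
  simp [cs]

lemma cs_reverse (l : List ℤ) : cs l.reverse = (cs l).reverse := by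
  induction l with
  | nil => simp [cs]
  | cons x l ih =>
    cases l with
    | nil => simp [cs]
    | cons y l =>
      have h : cs (y :: l).reverse = (cs (y :: l)).reverse := ih
      rw [List.reverse_cons, List.reverse_cons, cs_concat]
      rw [List.reverse_cons] at h
      rw [h]
      simp only [cs, List.reverse_cons]
      rw [add_comm]

lemma length_cs (l : List ℤ) (a : ℤ) : (cs (l ++ [a])).length = l.length := by
  induction l with
  | nil => simp [cs]
  | cons x l ih =>
    cases l with
    | nil => simp [cs]
    | cons y l =>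
      simp only [List.cons_append, cs, List.length_cons] at ih ⊢
      rw [ih]

/-- A nonempty list with its first and last element, its multiset and the multiset of its
consecutive sums. -/
structure Summ (l : List ℤ) (f g : ℤ) (V S : Multiset ℤ) : Prop where
  hd : l.head? = some f
  lst : ∃ l', l = l' ++ [g]
  vert : (l : Multiset ℤ) = V
  sums : (cs l : Multiset ℤ) = S

lemma Summ.append {l m : List ℤ} {f g f' g' : ℤ} {V S V' S' : Multiset ℤ}
    (h : Summ l f g V S) (h' : Summ m f' g' V' S') :
    Summ (l ++ m) f g' (V + V') (S + S' + {g + f'}) := by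
  obtain ⟨h1, ⟨l', rfl⟩, h3, h4⟩ := h
  obtain ⟨h1', ⟨m', hm'⟩, h3', h4'⟩ := h'
  obtain ⟨m'', rfl⟩ : ∃ m'', m = f' :: m'' := by
    cases m with
    | nil => simp at h1'
    | cons y m => simp at h1'; exact ⟨m, by rw [h1']⟩
  refine ⟨?_, ⟨l' ++ [g] ++ m', by rw [hm']; simp⟩, ?_, ?_⟩
  · rw [List.head?_append, h1]; simp
  · rw [← h3, ← h3', ← Multiset.coe_add]
  · rw [cs_append, ← h4, ← h4', ← Multiset.coe_add, ← Multiset.cons_coe]
    rw [Multiset.add_cons, add_comm _ ({g + f'} : Multiset ℤ), Multiset.singleton_add]

/-! ### Zigzag blocks -/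

/-- The zigzag `p, q, p + 1, q + 1, …` with `2 k` terms. -/
def upList (p q : ℤ) : ℕ → List ℤ
  | 0 => []
  | k + 1 => p :: q :: upList (p + 1) (q + 1) k

lemma upList_vert (k : ℕ) : ∀ p q : ℤ, ((upList p q k : List ℤ) : Multiset ℤ) =
    iv p k + iv q k := by
  induction k with
  | zero => intro p q; simp [upList, iv_zero]
  | succ k ih =>
    intro p q
    rw [upList, ← Multiset.cons_coe, ← Multiset.cons_coe, ih, iv_succ' p, iv_succ' q,
      Multiset.add_cons, Multiset.cons_add, Multiset.cons_swap]

lemma upList_sums (k : ℕ) : ∀ p q : ℤ, ((cs (upList p q (k + 1)) : List ℤ) : Multiset ℤ) =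
    iv (p + q) (2 * k + 1) := by
  induction k with
  | zero => intro p q; simp [upList, cs, iv_one]
  | succ k ih =>
    intro p q
    have h := ih (p + 1) (q + 1)
    rw [upList]
    rw [upList] at h ⊢
    simp only [cs] at h ⊢
    rw [← Multiset.cons_coe, ← Multiset.cons_coe, h]
    rw [show 2 * (k + 1) + 1 = (2 * k + 1) + 1 + 1 by ring, iv_succ' (p + q) (2 * k + 1 + 1),
      iv_succ' (p + q + 1) (2 * k + 1)]
    rw [show q + (p + 1) = p + q + 1 by ring, show p + 1 + (q + 1) = p + q + 1 + 1 by ring]

lemma upList_last (k : ℕ) : ∀ p q : ℤ, ∃ l', upList p q (k + 1) = l' ++ [q + k] := by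
  induction k with
  | zero => intro p q; exact ⟨[p], by simp [upList]⟩
  | succ k ih =>
    intro p q
    obtain ⟨l', hl'⟩ := ih (p + 1) (q + 1)
    refine ⟨p :: q :: l', ?_⟩
    rw [upList, hl']
    simp only [List.cons_append]
    congr 4
    push_cast
    ring

lemma upList_summ (p q : ℤ) (k : ℕ) :
    Summ (upList p q (k + 1)) p (q + k) (iv p (k + 1) + iv q (k + 1)) (iv (p + q) (2 * k + 1)) :=
  ⟨by simp [upList], upList_last k p q, upList_vert _ p q, upList_sums k p q⟩

lemma dnList_summ (p q : ℤ) (k : ℕ) :
    Summ (upList q p (k + 1)).reverse (p + k) q (iv p (k + 1) + iv q (k + 1))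
      (iv (p + q) (2 * k + 1)) := by
  obtain ⟨l', hl'⟩ := upList_last k q p
  refine ⟨?_, ⟨(p :: upList (q + 1) (p + 1) k).reverse, ?_⟩, ?_, ?_⟩
  · rw [hl']; simp
  · rw [upList]; simp
  · rw [Multiset.coe_reverse, upList_vert, add_comm]
  · rw [cs_reverse, Multiset.coe_reverse, upList_sums, add_comm q p]

/-! ### Templates -/

/-- An affine function `c + a s + b t`. -/
structure Aff where
  /-- constant term -/
  c : ℤ
  /-- coefficient of `s` -/
  a : ℤ
  /-- coefficient of `t` -/
  b : ℤ
deriving DecidableEq

namespace Aff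

/-- Evaluation. -/
def ev (f : Aff) (s t : ℕ) : ℤ := f.c + f.a * s + f.b * t

/-- Sum. -/
def add (f g : Aff) : Aff := ⟨f.c + g.c, f.a + g.a, f.b + g.b⟩

/-- Difference. -/
def sub (f g : Aff) : Aff := ⟨f.c - g.c, f.a - g.a, f.b - g.b⟩

/-- The constant `1`. -/
def unit : Aff := ⟨1, 0, 0⟩

/-- All coefficients are nonnegative. -/
def nonneg (f : Aff) : Bool := decide (0 ≤ f.c) && decide (0 ≤ f.a) && decide (0 ≤ f.b)

lemma ev_add (f g : Aff) (s t : ℕ) : (f.add g).ev s t = f.ev s t + g.ev s t := by
  simp only [ev, add]; ring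

lemma ev_sub (f g : Aff) (s t : ℕ) : (f.sub g).ev s t = f.ev s t - g.ev s t := by
  simp only [ev, sub]; ring

lemma ev_unit (s t : ℕ) : unit.ev s t = 1 := by simp [ev, unit]

lemma ev_nonneg {f : Aff} (h : f.nonneg = true) (s t : ℕ) : 0 ≤ f.ev s t := by
  simp only [nonneg, Bool.and_eq_true, decide_eq_true_eq] at h
  obtain ⟨⟨h1, h2⟩, h3⟩ := h
  unfold ev
  have := mul_nonneg h2 (Int.natCast_nonneg s)
  have := mul_nonneg h3 (Int.natCast_nonneg t)
  linarith

end Aff

/-- The building blocks of a template. -/
inductive Item where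
  /-- a single vertex -/
  | one (p : Aff)
  /-- the zigzag `p, q, p + 1, q + 1, …, p + m, q + m` -/
  | up (p q m : Aff)
  /-- the zigzag `p + m, q + m, …, p, q` -/
  | dn (p q m : Aff)

namespace Item

/-- The vertex labels of the block. -/
def expand (s t : ℕ) : Item → List ℤ
  | one p => [p.ev s t]
  | up p q m => upList (p.ev s t) (q.ev s t) ((m.ev s t).toNat + 1)
  | dn p q m => (upList (q.ev s t) (p.ev s t) ((m.ev s t).toNat + 1)).reverse

/-- The first vertex label. -/
def fst : Item → Aff
  | one p => p
  | up p _ _ => p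
  | dn p _ m => p.add m

/-- The last vertex label. -/
def lst : Item → Aff
  | one p => p
  | up _ q m => q.add m
  | dn _ q _ => q

/-- The intervals (start, length) of vertex labels. -/
def V : Item → List (Aff × Aff)
  | one p => [(p, Aff.unit)]
  | up p q m => [(p, m.add Aff.unit), (q, m.add Aff.unit)]
  | dn p q m => [(p, m.add Aff.unit), (q, m.add Aff.unit)]

/-- The intervals (start, length) of inner consecutive sums. -/
def S : Item → List (Aff × Aff)
  | one _ => []
  | up p q m => [(p.add q, (m.add m).add Aff.unit)]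
  | dn p q m => [(p.add q, (m.add m).add Aff.unit)]

/-- The length parameter is nonnegative. -/
def ok : Item → Bool
  | one _ => true
  | up _ _ m => m.nonneg
  | dn _ _ m => m.nonneg

end Item

/-- The multiset described by a symbolic interval. -/
def pv (s t : ℕ) (x : Aff × Aff) : Multiset ℤ := iv (x.1.ev s t) (x.2.ev s t).toNat

lemma item_summ (it : Item) (h : it.ok = true) (s t : ℕ) :
    Summ (it.expand s t) (it.fst.ev s t) (it.lst.ev s t) ((it.V.map (pv s t)).sum)
      ((it.S.map (pv s t)).sum) := by
  cases it with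
  | one p =>
    refine ⟨by simp [Item.expand, Item.fst], ⟨[], by simp [Item.expand, Item.lst]⟩, ?_, ?_⟩
    · simp [Item.expand, Item.V, pv, Aff.ev_unit, iv_one]
    · simp [Item.expand, Item.S, cs]
  | up p q m =>
    have hm : 0 ≤ m.ev s t := Aff.ev_nonneg h s t
    obtain ⟨k, hk⟩ := Int.eq_ofNat_of_zero_le hm
    have h1 := upList_summ (p.ev s t) (q.ev s t) k
    simp only [Item.expand, Item.fst, Item.lst, Item.V, Item.S, List.map_cons, List.map_nil,
      List.sum_cons, List.sum_nil, add_zero, pv, Aff.ev_add, Aff.ev_unit, hk]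
    rw [show ((k : ℤ)).toNat = k by simp, show ((k : ℤ) + 1).toNat = k + 1 by omega,
      show ((k : ℤ) + k + 1).toNat = 2 * k + 1 by omega]
    exact h1
  | dn p q m =>
    have hm : 0 ≤ m.ev s t := Aff.ev_nonneg h s t
    obtain ⟨k, hk⟩ := Int.eq_ofNat_of_zero_le hm
    have h1 := dnList_summ (p.ev s t) (q.ev s t) k
    simp only [Item.expand, Item.fst, Item.lst, Item.V, Item.S, List.map_cons, List.map_nil,
      List.sum_cons, List.sum_nil, add_zero, pv, Aff.ev_add, Aff.ev_unit, hk]
    rw [show ((k : ℤ)).toNat = k by simp, show ((k : ℤ) + 1).toNat = k + 1 by omega,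
      show ((k : ℤ) + k + 1).toNat = 2 * k + 1 by omega]
    exact h1

/-- The symbolic sums of the edges joining consecutive blocks. -/
def conn : List Item → List (Aff × Aff)
  | [] => []
  | [_] => []
  | x :: y :: l => (x.lst.add y.fst, Aff.unit) :: conn (y :: l)

/-- The last vertex label of a nonempty list of blocks. -/
def lastOf (x : Item) : List Item → Aff
  | [] => x.lst
  | y :: l => lastOf y l

lemma items_summ (s t : ℕ) : ∀ (l : List Item) (x : Item), (∀ i ∈ x :: l, i.ok = true) →
    Summ ((x :: l).flatMap (Item.expand s t)) (x.fst.ev s t) ((lastOf x l).ev s t)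
      (((x :: l).map fun i => (i.V.map (pv s t)).sum).sum)
      ((((x :: l).map fun i => (i.S.map (pv s t)).sum).sum) +
        ((conn (x :: l)).map (pv s t)).sum) := by
  intro l
  induction l with
  | nil =>
    intro x hx
    have h1 := item_summ x (hx x (by simp)) s t
    simpa [conn, lastOf] using h1
  | cons y l ih =>
    intro x hx
    have h1 := item_summ x (hx x (by simp)) s t
    have h2 := ih y (fun i hi => hx i (List.mem_cons_of_mem _ hi))
    have h3 := h1.append h2
    have e1 : pv s t (x.lst.add y.fst, Aff.unit) = {x.lst.ev s t + y.fst.ev s t} := by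
      simp [pv, Aff.ev_add, Aff.ev_unit, iv_one]
    have e2 : lastOf x (y :: l) = lastOf y l := rfl
    rw [List.flatMap_cons, e2]
    simp only [List.map_cons, List.sum_cons, conn, e1] at h3 ⊢
    convert h3 using 1
    abel

/-- A template: the blocks (the first one separately), the magic constant and the number of
vertices, as affine functions of the parameters. -/
structure Template where
  /-- first block -/
  x : Item
  /-- the other blocks -/
  l : List Item
  /-- the magic constant -/
  J : Aff
  /-- the number of vertices -/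
  n : Aff

/-- Turn an interval of sums into an interval of edge labels. -/
def flip (J : Aff) (x : Aff × Aff) : Aff × Aff := (((J.sub x.1).sub x.2).add Aff.unit, x.2)

/-- All intervals of labels of a template. -/
def Template.pieces (T : Template) : List (Aff × Aff) :=
  (T.x :: T.l).flatMap Item.V ++
    ((T.x :: T.l).flatMap Item.S ++ conn (T.x :: T.l) ++
      [((lastOf T.x T.l).add T.x.fst, Aff.unit)]).map (flip T.J)

/-- The end of a chain of adjacent intervals starting at `a`. -/
def chain (a : Aff) : List (Aff × Aff) → Option Aff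
  | [] => some a
  | x :: l => if x.1 = a ∧ x.2.nonneg = true then chain (a.add x.2) l else none

/-- Insertion of an interval. -/
def ins (x : Aff × Aff) : List (Aff × Aff) → List (Aff × Aff)
  | [] => [x]
  | y :: l => if x.1.c ≤ y.1.c then x :: y :: l else y :: ins x l

/-- Sorting of the intervals by the constant term of the start. -/
def sort : List (Aff × Aff) → List (Aff × Aff)
  | [] => []
  | x :: l => ins x (sort l)

lemma ins_perm (x : Aff × Aff) (l : List (Aff × Aff)) : (ins x l).Perm (x :: l) := by
  induction l with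
  | nil => exact List.Perm.refl _
  | cons y l ih =>
    unfold ins
    split_ifs
    · exact List.Perm.refl _
    · exact (ih.cons y).trans (List.Perm.swap x y l)

lemma sort_perm (l : List (Aff × Aff)) : (sort l).Perm l := by
  induction l with
  | nil => exact List.Perm.refl _
  | cons x l ih =>
    unfold sort
    exact (ins_perm x _).trans (ih.cons x)

/-- The decidable criterion. -/
def Template.check (T : Template) : Bool :=
  (T.x :: T.l).all Item.ok && decide (chain Aff.unit (sort T.pieces) =
    some ((T.n.add T.n).add Aff.unit)) && T.n.nonneg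

lemma chain_sum (s t : ℕ) : ∀ (l : List (Aff × Aff)) (a e : Aff), chain a l = some e →
    ((l.map (pv s t)).sum = iv (a.ev s t) (e.ev s t - a.ev s t).toNat ∧ a.ev s t ≤ e.ev s t) := by
  intro l
  induction l with
  | nil =>
    intro a e h
    simp only [chain, Option.some.injEq] at h
    subst h
    simp [iv_zero]
  | cons x l ih =>
    intro a e h
    unfold chain at h
    split_ifs at h with hx
    obtain ⟨hx1, hx2⟩ := hx
    obtain ⟨h1, h2⟩ := ih _ _ h
    have h3 : 0 ≤ x.2.ev s t := Aff.ev_nonneg hx2 s t
    rw [Aff.ev_add] at h1 h2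
    refine ⟨?_, by linarith⟩
    rw [List.map_cons, List.sum_cons, h1, pv, hx1]
    obtain ⟨k, hk⟩ := Int.eq_ofNat_of_zero_le h3
    rw [hk] at h2 ⊢
    rw [show ((k : ℤ)).toNat = k by simp, ← iv_add]
    congr 1
    omega

lemma flip_pv (J : Aff) (s t : ℕ) (x : Aff × Aff) (hx : 0 ≤ x.2.ev s t) :
    pv s t (flip J x) = (pv s t x).map (fun z => J.ev s t - z) := by
  unfold pv flip
  rw [map_sub_iv]
  simp only [Aff.ev_add, Aff.ev_sub, Aff.ev_unit]
  congr 1
  have : (((x.2.ev s t).toNat : ℕ) : ℤ) = x.2.ev s t := Int.toNat_of_nonneg hx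
  rw [this]

lemma chain_nonneg (s t : ℕ) : ∀ (l : List (Aff × Aff)) (a e : Aff), chain a l = some e →
    ∀ x ∈ l, 0 ≤ x.2.ev s t := by
  intro l
  induction l with
  | nil => intro a e _ x hx; simp at hx
  | cons y l ih =>
    intro a e h x hx
    unfold chain at h
    split_ifs at h with hy
    rcases List.mem_cons.1 hx with rfl | hx
    · exact Aff.ev_nonneg hy.2 s t
    · exact ih _ _ h x hx

lemma sum_flatMap (f : Item → List (Aff × Aff)) (s t : ℕ) (l : List Item) :
    ((l.flatMap f).map (pv s t)).sum = (l.map fun i => ((f i).map (pv s t)).sum).sum := by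
  induction l with
  | nil => simp
  | cons x l ih => simp [List.flatMap_cons, ih]

lemma map_sub_sum (J : ℤ) (l : List (Multiset ℤ)) :
    (l.sum).map (fun z => J - z) = (l.map (fun m => m.map (fun z => J - z))).sum := by
  induction l with
  | nil => simp
  | cons x l ih => simp [Multiset.map_add, ih]

/-- **Soundness of templates.** -/
theorem Template.good (T : Template) (hT : T.check = true) (s t : ℕ) :
    Good (T.n.ev s t).toNat (T.J.ev s t) := by
  simp only [Template.check, Bool.and_eq_true, List.all_eq_true, decide_eq_true_eq] at hT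
  obtain ⟨⟨h1, h2⟩, h3⟩ := hT
  have hn : 0 ≤ T.n.ev s t := Aff.ev_nonneg h3 s t
  have hS := items_summ s t T.l T.x h1
  set L : List ℤ := (T.x :: T.l).flatMap (Item.expand s t) with hL
  obtain ⟨hd, ⟨L', hL'⟩, hV, hSs⟩ := hS
  -- the multiset of edge labels
  have hE : (edges (T.J.ev s t) L : Multiset ℤ) =
      ((((T.x :: T.l).flatMap Item.S ++ conn (T.x :: T.l) ++
      [((lastOf T.x T.l).add T.x.fst, Aff.unit)]).map (pv s t)).sum).map
        (fun z => T.J.ev s t - z) := by
    unfold edges
    rw [hd, Option.toList_some, ← Multiset.map_coe]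
    congr 1
    rw [hL', cs_concat, ← hL', ← Multiset.coe_add, hSs]
    simp only [List.map_append, List.sum_append, sum_flatMap, List.map_cons, List.map_nil,
      List.sum_cons, List.sum_nil, add_zero]
    congr 1
    simp [pv, Aff.ev_add, Aff.ev_unit, iv_one]
  have hpieces : ∀ x ∈ T.pieces, 0 ≤ x.2.ev s t := by
    intro x hx
    exact chain_nonneg s t _ _ _ h2 x ((sort_perm T.pieces).mem_iff.2 hx)
  have hE2 : (edges (T.J.ev s t) L : Multiset ℤ) =
      ((((T.x :: T.l).flatMap Item.S ++ conn (T.x :: T.l) ++
      [((lastOf T.x T.l).add T.x.fst, Aff.unit)]).map (flip T.J)).map (pv s t)).sum := by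
    rw [hE, map_sub_sum, List.map_map, List.map_map]
    congr 1
    apply List.map_congr_left
    intro x hx
    have hx2 : 0 ≤ x.2.ev s t := by
      have := hpieces (flip T.J x) (List.mem_append_right _ (List.mem_map_of_mem hx))
      exact this
    simp only [Function.comp]
    rw [flip_pv _ _ _ _ hx2]
  have hVE : (L : Multiset ℤ) + (edges (T.J.ev s t) L : Multiset ℤ) =
      (T.pieces.map (pv s t)).sum := by
    rw [hE2, hV]
    unfold Template.pieces
    simp only [List.map_append, List.sum_append, sum_flatMap]
  have hsum : (T.pieces.map (pv s t)).sum = ((sort T.pieces).map (pv s t)).sum :=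
    (((sort_perm T.pieces).map (pv s t)).sum_eq).symm
  obtain ⟨h4, h5⟩ := chain_sum s t _ _ _ h2
  rw [hsum, h4] at hVE
  simp only [Aff.ev_add, Aff.ev_unit] at hVE
  obtain ⟨k, hk⟩ := Int.eq_ofNat_of_zero_le hn
  rw [hk] at hVE ⊢
  rw [show ((k : ℤ) + k + 1 - 1).toNat = 2 * k by omega] at hVE
  rw [show ((k : ℤ)).toNat = k by simp]
  refine ⟨L, ?_, hVE⟩
  have hlen := congrArg Multiset.card hVE
  rw [Multiset.card_add, Multiset.coe_card, Multiset.coe_card, card_iv] at hlen
  have hE3 : (edges (T.J.ev s t) L).length = L.length := by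
    unfold edges
    rw [hd, Option.toList_some, List.length_map, length_cs]
  omega

/-! ### Duality -/

lemma cs_map (c : ℤ) (l : List ℤ) :
    cs (l.map (fun z => c - z)) = (cs l).map (fun z => 2 * c - z) := by
  induction l with
  | nil => simp [cs]
  | cons x l ih =>
    cases l with
    | nil => simp [cs]
    | cons y l =>
      simp only [List.map_cons, cs] at ih ⊢
      rw [ih]
      congr 1
      ring

lemma Good.dual {n : ℕ} {J : ℤ} (h : Good n J) : Good n (6 * n + 3 - J) := by
  obtain ⟨L, hL, hLE⟩ := h
  refine ⟨L.map (fun z => (2 * n + 1 : ℤ) - z), by simpa using hL, ?_⟩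
  have h1 : edges (6 * n + 3 - J) (L.map (fun z => (2 * n + 1 : ℤ) - z)) =
      (edges J L).map (fun z => (2 * n + 1 : ℤ) - z) := by
    unfold edges
    have h2 : L.map (fun z => (2 * n + 1 : ℤ) - z) ++
        (L.map (fun z => (2 * n + 1 : ℤ) - z)).head?.toList =
        (L ++ L.head?.toList).map (fun z => (2 * n + 1 : ℤ) - z) := by
      rw [List.map_append]
      congr 1
      cases L with
      | nil => simp
      | cons x L => simp
    rw [h2, cs_map, List.map_map, List.map_map]
    apply List.map_congr_left
    intro x _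
    simp only [Function.comp]
    ring
  rw [h1, ← Multiset.map_coe, ← Multiset.map_coe, ← Multiset.map_add, hLE, map_sub_iv]
  congr 1
  push_cast
  ring

/-! ### From lists to functions -/

lemma getElem_cs : ∀ (l : List ℤ) (i : ℕ) (h : i < (cs l).length) (h1 : i < l.length)
    (h2 : i + 1 < l.length), (cs l)[i] = l[i] + l[i + 1] := by
  intro l
  induction l with
  | nil => intro i h; simp [cs] at h
  | cons x l ih =>
    cases l with
    | nil => intro i h; simp [cs] at h
    | cons y l =>
      intro i h h1 h2
      cases i with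
      | zero => simp [cs]
      | succ i =>
        simp only [cs, List.getElem_cons_succ]
        have := ih i (by simpa [cs] using h) (by simpa using h1) (by simpa using h2)
        rw [this]
        simp

lemma Good.exists_functions {m : ℕ} {j : ℕ} (h : Good (m + 1) (j : ℤ)) :
    ∃ f g : Fin (m + 1) → ℕ, Function.Injective (Sum.elim f g) ∧
      (∀ x : Fin (m + 1) ⊕ Fin (m + 1), Sum.elim f g x ∈ Finset.Icc 1 (2 * (m + 1))) ∧
      ∀ i : Fin (m + 1), g i + f i + f (finRotate (m + 1) i) = j := by
  obtain ⟨L, hL, hLE⟩ := h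
  have hmem : ∀ z ∈ L ++ edges j L, (1 : ℤ) ≤ z ∧ z ≤ 2 * (m + 1) := by
    intro z hz
    have h1 : z ∈ ((L : Multiset ℤ) + (edges j L : Multiset ℤ)) := by
      rw [Multiset.coe_add]; exact hz
    rw [hLE, iv, Multiset.mem_map] at h1
    obtain ⟨i, hi, rfl⟩ := h1
    rw [Multiset.mem_range] at hi
    constructor
    · omega
    · omega
  have hnodup : (L ++ edges j L).Nodup := by
    rw [← Multiset.coe_nodup, ← Multiset.coe_add, hLE, iv]
    apply Multiset.Nodup.map _ (Multiset.nodup_range _)
    intro a b hab
    simp only at hab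
    omega
  obtain ⟨x0, L0, rfl⟩ : ∃ x0 L0, L = x0 :: L0 := by
    cases L with
    | nil => simp at hL
    | cons x L => exact ⟨x, L, rfl⟩
  set L : List ℤ := x0 :: L0 with hLdef
  have hElen : (edges j L).length = m + 1 := by
    unfold edges
    rw [hLdef, List.head?_cons, Option.toList_some, List.length_map, length_cs, ← hLdef, hL]
  have hEget : ∀ i : Fin (m + 1), (edges j L)[(i : ℕ)]'(by rw [hElen]; exact i.2) =
      j - (L[(i : ℕ)]'(by rw [hL]; exact i.2) +
        L[((finRotate (m + 1) i : Fin (m + 1)) : ℕ)]'(by rw [hL]; exact Fin.is_lt _)) := by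
    intro i
    have hi := i.2
    unfold edges
    rw [List.getElem_map]
    have hlen2 : (L ++ L.head?.toList).length = m + 2 := by
      rw [hLdef, List.head?_cons, Option.toList_some, List.length_append, ← hLdef, hL]
      simp
    rw [getElem_cs _ _ _ (by rw [hlen2]; omega) (by rw [hlen2]; omega)]
    congr 2
    · rw [List.getElem_append_left (by rw [hL]; omega)]
    · rcases Nat.lt_or_ge ((i : ℕ) + 1) (m + 1) with hlt | hge
      · have h1 : ((finRotate (m + 1) i : Fin (m + 1)) : ℕ) = i + 1 := by
          have : i ≠ Fin.last m := by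
            intro he
            rw [he] at hlt
            simp at hlt
          rw [coe_finRotate_of_ne_last this]
        rw [List.getElem_append_left (by rw [hL]; omega)]
        simp only [h1]
      · have h1 : i = Fin.last m := by
          apply Fin.ext
          simp only [Fin.val_last]
          omega
        have h2 : ((finRotate (m + 1) i : Fin (m + 1)) : ℕ) = 0 := by
          rw [h1]
          simp
        rw [List.getElem_append_right (by rw [hL]; omega)]
        simp only [h2]
        simp [hLdef]
  -- the two labelings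
  refine ⟨fun i => (L[(i : ℕ)]'(by rw [hL]; exact i.2)).toNat,
    fun i => ((edges j L)[(i : ℕ)]'(by rw [hElen]; exact i.2)).toNat, ?_, ?_, ?_⟩
  · -- injectivity
    set idx : Fin (m + 1) ⊕ Fin (m + 1) → ℕ := Sum.elim (fun i => (i : ℕ)) (fun i => m + 1 + i)
      with hidx
    have hidxlt : ∀ x, idx x < (L ++ edges j L).length := by
      intro x
      rw [List.length_append, hL, hElen, hidx]
      rcases x with i | i
      · have := i.2
        simp only [Sum.elim_inl]; omega
      · have := i.2
        simp only [Sum.elim_inr]; omega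
    have hidxinj : Function.Injective idx := by
      rintro (a | a) (b | b) hab
      · simp only [hidx, Sum.elim_inl] at hab
        rw [Fin.ext hab]
      · simp only [hidx, Sum.elim_inl, Sum.elim_inr] at hab
        have := a.2
        omega
      · simp only [hidx, Sum.elim_inl, Sum.elim_inr] at hab
        have := b.2
        omega
      · simp only [hidx, Sum.elim_inr] at hab
        rw [Fin.ext (show (a : ℕ) = b by omega)]
    have hval : ∀ x, (Sum.elim (fun i : Fin (m + 1) => (L[(i : ℕ)]'(by rw [hL]; exact i.2)).toNat)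
        (fun i : Fin (m + 1) => ((edges j L)[(i : ℕ)]'(by rw [hElen]; exact i.2)).toNat) x) =
        ((L ++ edges j L)[idx x]'(hidxlt x)).toNat := by
      rintro (i | i)
      · simp only [Sum.elim_inl, hidx]
        rw [List.getElem_append_left (by rw [hL]; exact i.2)]
      · simp only [Sum.elim_inr, hidx]
        rw [List.getElem_append_right (by rw [hL]; omega)]
        congr 2
        simp only [hL]
        omega
    intro a b hab
    rw [hval, hval] at hab
    have ha := (hmem _ (List.getElem_mem (hidxlt a))).1
    have hb := (hmem _ (List.getElem_mem (hidxlt b))).1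
    have h1 : (L ++ edges j L)[idx a]'(hidxlt a) = (L ++ edges j L)[idx b]'(hidxlt b) := by
      omega
    exact hidxinj ((List.Nodup.getElem_inj_iff hnodup).1 h1)
  · rintro (i | i)
    · simp only [Sum.elim_inl]
      rw [Finset.mem_Icc]
      have h1 := hmem _ (List.mem_append_left (edges j L)
        (List.getElem_mem (l := L) (n := (i : ℕ)) (by rw [hL]; exact i.2)))
      omega
    · simp only [Sum.elim_inr]
      rw [Finset.mem_Icc]
      have h1 := hmem _ (List.mem_append_right L
        (List.getElem_mem (l := edges j L) (n := (i : ℕ)) (by rw [hElen]; exact i.2)))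
      omega
  · intro i
    simp only
    have h1 := hmem _ (List.mem_append_left (edges j L)
        (List.getElem_mem (l := L) (n := (i : ℕ)) (by rw [hL]; exact i.2)))
    have h2 := hmem _ (List.mem_append_left (edges j L)
        (List.getElem_mem (l := L) (n := ((finRotate (m + 1) i : Fin (m + 1)) : ℕ))
          (by rw [hL]; exact Fin.is_lt _)))
    have h3 := hmem _ (List.mem_append_right L
        (List.getElem_mem (l := edges j L) (n := (i : ℕ)) (by rw [hElen]; exact i.2)))
    have h4 := hEget i
    omega

end Pool.Agent.Lib.MP_a90607_co
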